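import Pool.Agent.H608R5.KL.Stm

/-! Project KL (helper608), piece KQ: the Hessian form. -/

set_option autoImplicit false

namespace Pool.Agent.TH31.KL

open Pool.Agent.H608R5.KL Finset

theorem CC_0 : CC 0 = 1 := by unfold CC; rw [if_pos rfl]
theorem CC_1 : CC 1 = 0 := by unfold CC; rw [if_neg (by decide), if_neg (by decide)]
theorem CC_2 : CC 2 = -1 := by unfold CC; rw [if_neg (by decide), if_pos rfl]
theorem CC_m : CC (-1) = 0 := by unfold CC; rw [if_neg (by decide), if_neg (by decide)]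
theorem SS_0 : SS 0 = 0 := by unfold SS; rw [if_neg (by decide), if_neg (by decide)]
theorem SS_1 : SS 1 = 1 := by unfold SS; rw [if_pos rfl]
theorem SS_m : SS (-1) = -1 := by unfold SS; rw [if_neg (by decide), if_pos (by decide)]
theorem T_0 {M : ℕ} (x y : I M) : T 0 x y = 1 := by unfold T; rw [if_pos rfl]
theorem T_1 {M : ℕ} (x y : I M) : T 1 x y = sam x y - dlt x y := by
  unfold T; rw [if_neg (by decide), if_neg (by decide), if_pos rfl]
theorem T_2 {M : ℕ} (x y : I M) : T 2 x y = 0 := by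
  unfold T; rw [if_neg (by decide), if_neg (by decide), if_neg (by decide)]
theorem T_m {M : ℕ} (x y : I M) : T (-1) x y = 1 - dlt x y := by
  unfold T; rw [if_neg (by decide), if_pos (by decide)]
theorem S_0 {M : ℕ} (x y : I M) : S 0 x y = 1 - dlt x y := by unfold S; rw [if_pos rfl]
theorem S_2 {M : ℕ} (x y : I M) : S 2 x y = 0 := by
  unfold S; rw [if_neg (by decide), if_pos rfl]

theorem W_s {M : ℕ} (a b : ZMod 4) (τ : Bool) (x y : I M) :
    W (a, τ, x) (b, τ, y) = S (b - a) x y := by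
  unfold W
  exact if_pos rfl

theorem W_ft {M : ℕ} (a b : ZMod 4) (x y : I M) :
    W (a, false, x) (b, true, y) = T (b - a) x y := by
  unfold W
  rw [if_neg (by simp), if_pos rfl]

theorem W_tf {M : ℕ} (a b : ZMod 4) (x y : I M) :
    W (a, true, x) (b, false, y) = T (a - b) y x := by
  unfold W
  rw [if_neg (by simp), if_neg (by simp)]

theorem sum4 (g : ZMod 4 → ℝ) : ∑ d, g d = g 0 + g 1 + g 2 + g 3 := Fin.sum_univ_four g

theorem shift (a : ZMod 4) (g : ZMod 4 → ℝ) :
    ∑ b, g b = g a + g (a + 1) + g (a + 2) + g (a - 1) := by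
  rw [← Equiv.sum_comp (Equiv.addLeft a) g, sum4]
  simp only [Equiv.coe_addLeft, add_zero]
  have h : a + 3 = a - 1 := by
    have : (3 : ZMod 4) = -1 := by decide
    rw [this, sub_eq_add_neg]
  rw [h]

theorem t_KQ (hT : S_KT) : S_KQ := by
  intro M f
  have h1 : ∀ g : V M → ℝ,
      ∑ v, g v = ∑ a, ((∑ x, g (a, false, x)) + ∑ x, g (a, true, x)) := by
    intro g
    rw [Fintype.sum_prod_type]
    refine Finset.sum_congr rfl fun a _ => ?_
    rw [Fintype.sum_prod_type, Fintype.sum_bool, add_comm]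
  have key : ∀ F : V M → V M → ℝ, ∑ v, ∑ w, F v w =
      ∑ a, ((∑ b, ∑ x, ∑ y, F (a, false, x) (b, false, y)) +
        (∑ b, ∑ x, ∑ y, F (a, true, x) (b, true, y)) +
        (∑ b, ∑ x, ∑ y, F (a, false, x) (b, true, y)) +
        ∑ b, ∑ x, ∑ y, F (a, true, x) (b, false, y)) := by
    intro F
    rw [h1]
    refine sum_congr rfl fun a _ => ?_
    have h2 : ∀ τ : Bool, ∑ x, ∑ w, F (a, τ, x) w =
        (∑ b, ∑ x, ∑ y, F (a, τ, x) (b, false, y)) +
          ∑ b, ∑ x, ∑ y, F (a, τ, x) (b, true, y) := by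
      intro τ
      rw [Finset.sum_congr rfl (fun x _ => h1 (F (a, τ, x))), sum_comm, ← sum_add_distrib]
      refine sum_congr rfl fun b _ => ?_
      rw [sum_add_distrib]
    rw [h2, h2]
    ring
  obtain ⟨F, hF⟩ : ∃ F : V M → V M → ℝ,
    F = fun v w => W v w * Real.cos (th v - th w) * (f v - f w) ^ 2 := ⟨_, rfl⟩
  have e1 : ∀ (a : ZMod 4) (τ : Bool), ∑ b, ∑ x, ∑ y, F (a, τ, x) (b, τ, y) =
      ∑ x, ∑ y, (f (a, τ, x) - f (a, τ, y)) ^ 2 := by
    intro a τ
    have g : ∀ (b : ZMod 4) (x y : I M), F (a, τ, x) (b, τ, y) =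
        S (b - a) x y * CC (b - a) * (f (a, τ, x) - f (b, τ, y)) ^ 2 := by
      intro b x y
      rw [hF]
      show W (a, τ, x) (b, τ, y) * Real.cos (th (a, τ, x) - th (b, τ, y)) *
        (f (a, τ, x) - f (b, τ, y)) ^ 2 = _
      rw [W_s, ((hT M a b x y).1 τ).1]
    rw [shift a]
    have z1 : ∑ x, ∑ y, F (a, τ, x) (a + 1, τ, y) = 0 := by
      refine sum_eq_zero fun x _ => sum_eq_zero fun y _ => ?_
      rw [g, add_sub_cancel_left, CC_1, mul_zero, zero_mul]
    have z2 : ∑ x, ∑ y, F (a, τ, x) (a + 2, τ, y) = 0 := by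
      refine sum_eq_zero fun x _ => sum_eq_zero fun y _ => ?_
      rw [g, add_sub_cancel_left, S_2, zero_mul, zero_mul]
    have z3 : ∑ x, ∑ y, F (a, τ, x) (a - 1, τ, y) = 0 := by
      refine sum_eq_zero fun x _ => sum_eq_zero fun y _ => ?_
      rw [g, show a - 1 - a = -1 by ring, CC_m, mul_zero, zero_mul]
    rw [z1, z2, z3, add_zero, add_zero, add_zero]
    refine sum_congr rfl fun x _ => sum_congr rfl fun y _ => ?_
    rw [g, sub_self, S_0, CC_0, mul_one]
    unfold dlt
    split_ifs with hxy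
    · rw [hxy]; ring
    · ring
  have e2 : ∀ a : ZMod 4, ∑ b, ∑ x, ∑ y, F (a, false, x) (b, true, y) =
      2 * kp * (∑ x, ∑ y, (f (a, false, x) - f (a, true, y)) ^ 2)
    + kp * (∑ x, ∑ y, (1 - dlt x y) * (f (a, false, x) - f (a - 1, true, y)) ^ 2)
    - kp * (∑ x, ∑ y, (sam x y - dlt x y) * (f (a, false, x) - f (a + 1, true, y)) ^ 2) := by
    intro a
    have g : ∀ (b : ZMod 4) (x y : I M), F (a, false, x) (b, true, y) =
        T (b - a) x y * (CC (b - a) * (2 * kp) - SS (b - a) * kp) *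
          (f (a, false, x) - f (b, true, y)) ^ 2 := by
      intro b x y
      rw [hF]
      show W (a, false, x) (b, true, y) * Real.cos (th (a, false, x) - th (b, true, y)) *
        (f (a, false, x) - f (b, true, y)) ^ 2 = _
      rw [W_ft, (hT M a b x y).2.1]
    rw [shift a]
    have z0 : ∑ x, ∑ y, F (a, false, x) (a, true, y) =
        2 * kp * (∑ x, ∑ y, (f (a, false, x) - f (a, true, y)) ^ 2) := by
      rw [mul_sum]
      refine sum_congr rfl fun x _ => ?_
      rw [mul_sum]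
      refine sum_congr rfl fun y _ => ?_
      rw [g, sub_self, T_0, CC_0, SS_0]
      ring
    have z1 : ∑ x, ∑ y, F (a, false, x) (a + 1, true, y) =
        -(kp * (∑ x, ∑ y, (sam x y - dlt x y) * (f (a, false, x) - f (a + 1, true, y)) ^ 2)) := by
      rw [mul_sum, ← sum_neg_distrib]
      refine sum_congr rfl fun x _ => ?_
      rw [mul_sum, ← sum_neg_distrib]
      refine sum_congr rfl fun y _ => ?_
      rw [g, add_sub_cancel_left, T_1, CC_1, SS_1]
      ring
    have z2 : ∑ x, ∑ y, F (a, false, x) (a + 2, true, y) = 0 := by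
      refine sum_eq_zero fun x _ => sum_eq_zero fun y _ => ?_
      rw [g, add_sub_cancel_left, T_2, zero_mul, zero_mul]
    have z3 : ∑ x, ∑ y, F (a, false, x) (a - 1, true, y) =
        kp * (∑ x, ∑ y, (1 - dlt x y) * (f (a, false, x) - f (a - 1, true, y)) ^ 2) := by
      rw [mul_sum]
      refine sum_congr rfl fun x _ => ?_
      rw [mul_sum]
      refine sum_congr rfl fun y _ => ?_
      rw [g, show a - 1 - a = -1 by ring, T_m, CC_m, SS_m]
      ring
    rw [z0, z1, z2, z3]
    ring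
  have e3 : ∀ a b : ZMod 4, ∑ x, ∑ y, F (a, true, x) (b, false, y) =
      ∑ x, ∑ y, F (b, false, x) (a, true, y) := by
    intro a b
    rw [sum_comm]
    refine sum_congr rfl fun x _ => sum_congr rfl fun y _ => ?_
    rw [hF]
    show W (a, true, y) (b, false, x) * Real.cos (th (a, true, y) - th (b, false, x)) *
        (f (a, true, y) - f (b, false, x)) ^ 2 =
      W (b, false, x) (a, true, y) * Real.cos (th (b, false, x) - th (a, true, y)) *
        (f (b, false, x) - f (a, true, y)) ^ 2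
    rw [W_tf, W_ft, ← Real.cos_neg (th (a, true, y) - th (b, false, x)), neg_sub]
    ring
  have e4 : ∑ a, ∑ b, ∑ x, ∑ y, F (a, true, x) (b, false, y) =
      ∑ a, ∑ b, ∑ x, ∑ y, F (a, false, x) (b, true, y) := by
    rw [sum_congr rfl (fun a _ => sum_congr rfl (fun b _ => e3 a b)), sum_comm]
  have e0 : ∑ v, ∑ w, W v w * Real.cos (th v - th w) * (f v - f w) ^ 2 = ∑ v, ∑ w, F v w := by
    rw [hF]
  rw [e0, key, sum_add_distrib, e4, ← sum_add_distrib]
  unfold H
  rw [mul_sum]
  refine sum_congr rfl fun a _ => ?_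
  rw [e1, e1, e2]
  ring

end Pool.Agent.TH31.KL
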